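import Pool.Agent.Helper71_HNF.StmtR

/-!
# HNF: module E1STP, the step of the recursion of engine I
-/

set_option autoImplicit false

namespace Pool.Agent.HNF.H50

open Topology Set MeasureTheory Filter

section

variable {G : Type} [Group G] [TopologicalSpace G]

/-- the relevant points of type `(i, j)` -/
def XX (I : Idx) (N : LNorm G) (q : ℕ → G) (D : Dat G) (t i j : ℕ) : Set G :=
  {x | N.N ((D.g (I.par t) * q i)⁻¹ * x) < D.η (I.th t) ∧
    ∃ l ∈ D.L (I.par t), x = l * (D.g (I.par t) * q j)}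

lemma XX_lt {I : Idx} {N : LNorm G} {q : ℕ → G} {D : Dat G} {t i j : ℕ} {x x' : G}
    (hx : x ∈ XX I N q D t i j) (hx' : x' ∈ XX I N q D t i j) :
    N.N (x⁻¹ * x') < 2 * D.η (I.th t) := by
  have h1 := hx.1
  have h2 := hx'.1
  have h3 : x⁻¹ * x' = ((D.g (I.par t) * q i)⁻¹ * x)⁻¹ * ((D.g (I.par t) * q i)⁻¹ * x') := by
    group
  rw [h3]
  have h4 := N.mul_le ((D.g (I.par t) * q i)⁻¹ * x)⁻¹ ((D.g (I.par t) * q i)⁻¹ * x')
  rw [N.inv] at h4
  linarith

lemma rel_XX {I : Idx} {N : LNorm G} {q : ℕ → G} {D : Dat G} {t : ℕ} {x : G}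
    (hx : Rel I N q D t x) : ∃ i < I.rd t, ∃ j < I.mp t, x ∈ XX I N q D t i j := by
  obtain ⟨⟨i, hi, hi'⟩, ⟨j, hj, hj'⟩, -⟩ := hx
  exact ⟨i, hi, j, hj, hi', hj'⟩

lemma ev_lt {n : ℕ} {P : ℕ → ℕ → Prop} (h : ∀ i < n, ∀ᶠ l in cofinite, P i l) :
    ∀ᶠ l in cofinite, ∀ i < n, P i l := by
  have := (Filter.eventually_all_finite (Set.finite_Iio n) (l := cofinite)
    (p := fun i l => P i l)).2 (fun i hi => h i hi)
  exact this

lemma ev_imp {α : Type*} {F : Filter α} {H : Prop} {P : α → Prop} (h : H → ∀ᶠ l in F, P l) :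
    ∀ᶠ l in F, H → P l := Filter.eventually_imp_distrib_left.2 h

/-- from the finiteness for the types to the relevant points -/
lemma ev_rel {I : Idx} {N : LNorm G} {q : ℕ → G} {D : Dat G} {t : ℕ} (T : Set G) (b : G) (r : ℝ)
    (θ : ℕ → G)
    (h : ∀ i < I.rd t, ∀ j < I.mp t,
      {l | ∃ x ∈ XX I N q D t i j, ∃ s ∈ T, N.N ((s * b)⁻¹ * (θ l * x)) < r}.Finite) :
    ∀ᶠ l in cofinite, ∀ x, Rel I N q D t x → ∀ s ∈ T, r ≤ N.N ((s * b)⁻¹ * (θ l * x)) := by
  have h1 : ∀ᶠ l in cofinite, ∀ i < I.rd t, ∀ j < I.mp t,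
      ¬ ∃ x ∈ XX I N q D t i j, ∃ s ∈ T, N.N ((s * b)⁻¹ * (θ l * x)) < r := by
    refine ev_lt fun i hi => ev_lt fun j hj => ?_
    have := h i hi j hj
    rw [Filter.eventually_cofinite]
    simpa using this
  filter_upwards [h1] with l hl x hx s hs
  by_contra hcon
  obtain ⟨i, hi, j, hj, hX⟩ := rel_XX hx
  exact hl i hi j hj ⟨x, hX, s, hs, not_le.1 hcon⟩

/-- the choice of `v` -/
lemma choose_v [IsTopologicalGroup G] (hBad : E1BadStmt) (hBad' : E1BadStmt')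
    (I : Idx) (N : LNorm G) (q : ℕ → G) (Γ : Gauge G) (W0 W1 : Set G)
    (hW1 : W1 ∈ 𝓝 (1 : G))
    (hW : ∀ a ∈ W1, ∀ b ∈ W1, ∀ c ∈ W1, ∀ d ∈ W1, a⁻¹ * b⁻¹ * c * d ∈ W0)
    (t : ℕ) (ht : 0 < t) (h : ℕ → R1 G) (hQ : ∀ s < t, Q1 I N q Γ W0 W1 s h (h s)) :
    ∃ l, (∀ t' < t, 0 < t' → I.par t' = I.par t → ∀ i' < I.rd t',
      (∃ x', RelI I N q (D1 h) t' i' x') → ∀ x, Rel I N q (D1 h) t x →
      3 * (h (I.th t)).η + 2 * (h (I.th t')).η ≤
        N.N (((h t').g * q i')⁻¹ * ((h (I.par t)).θ l * x))) ∧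
    (∀ w < t, I.par t < w → ∀ j' < t, ∀ o < t, ∀ j < t, ∀ tN < I.th t, 0 < tN →
      ∀ i < I.rd tN, I.par t < I.th tN → I.mp t ≤ I.th tN → ∀ x, Rel I N q (D1 h) t x →
      ∀ y ∈ (h w).A, ∀ l' ∈ (h w).L, 6 * (h (I.th tN)).η ≤
        N.N ((y * l' * ((h w).g * q j' * eps0 q (D1 h) o j tN i))⁻¹ *
          ((h (I.par t)).θ l * x))) := by
  have hp : I.par t < t := I.par_lt t ht
  have hth : I.th t < t := I.th_lt t ht
  have hQp := hQ _ hp
  have h1W : (1 : G) ∈ W1 := mem_of_mem_nhds hW1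
  have hθW : ∀ l, (h (I.par t)).θ l ∈ W1 := fun l => hQp.A_W (hQp.θ_mem l)
  -- monotonicity of the errors
  have hηmono : ∀ s s', s ≤ s' → s' < t → (h s').η ≤ (h s).η := by
    intro s s' hs hs'
    rcases Nat.eq_or_lt_of_le hs with rfl | hlt
    · exact le_rfl
    · exact (hQ s' hs').η_le s hlt
  have hηp : ∀ s < t, 0 < (h s).η := fun s hs => (hQ s hs).η_pos
  have ev1 : ∀ᶠ l in cofinite, ∀ t' < t, 0 < t' → I.par t' = I.par t → ∀ i' < I.rd t',
      (∃ x', RelI I N q (D1 h) t' i' x') → ∀ x, Rel I N q (D1 h) t x →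
      3 * (h (I.th t)).η + 2 * (h (I.th t')).η ≤
        N.N (((h t').g * q i')⁻¹ * ((h (I.par t)).θ l * x)) := by
    refine ev_lt fun t' ht' => ev_imp fun ht'0 => ev_imp fun hpar => ev_lt fun i' hi' =>
      ev_imp fun hx' => ?_
    have hth' : I.th t' < t := (I.th_lt t' ht'0).trans ht'
    obtain ⟨x', hx'R, hx'i⟩ := hx'
    have key : ∀ i < I.rd t, ∀ j < I.mp t,
        {l | ∃ x ∈ XX I N q (D1 h) t i j, ∃ s ∈ ({1} : Set G),
          N.N ((s * ((h t').g * q i'))⁻¹ * ((h (I.par t)).θ l * x)) <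
            3 * (h (I.th t)).η + 2 * (h (I.th t')).η}.Finite := by
      intro i hi j hj
      rcases le_or_gt (I.th t) (I.th t') with hle | hlt
      · -- the sibling is not older in time: use the first form
        have hη : (h (I.th t')).η ≤ (h (I.th t)).η := hηmono _ _ hle hth'
        have hpt : I.par t < I.th t := I.par_lt_th t (lt_of_le_of_lt (Nat.zero_le _) hj)
        have hjt : j < I.th t := lt_of_lt_of_le hj (I.mp_le t)
        have := hBad G N W0 (h (I.par t)).U (h (I.par t)).V (h (I.par t)).V1 (h (I.par t)).V2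
          (h (I.par t)).θ hQp.UI hQp.VVV hQp.θ_sep (XX I N q (D1 h) t i j)
          ((h (I.par t)).g * q j) (5 * (h (I.th t)).η)
          (fun x hx x' hx' => by
            have := XX_lt hx hx'
            have h3 : (D1 h).η (I.th t) = (h (I.th t)).η := rfl
            rw [h3] at this
            have := hηp _ hth
            linarith)
          (fun g hg => (hQ _ hth).η_conj _ hpt _ hjt g (by
            have := hηp _ hth
            linarith))
          {1} (by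
            rintro _ rfl
            exact mem_of_mem_nhds hQp.V2)
          (by
            rintro _ rfl l x ⟨-, m, hm, hx⟩
            have hm' : m ∈ W1 := hQp.L_W hm
            have h5 := hW 1 h1W 1 h1W _ (hθW l) m hm'
            rw [hx]
            have h6 : (1 : G)⁻¹ * (h (I.par t)).θ l * (m * ((D1 h).g (I.par t) * q j)) *
                ((h (I.par t)).g * q j)⁻¹ = 1⁻¹ * 1⁻¹ * (h (I.par t)).θ l * m := by
              change (1 : G)⁻¹ * (h (I.par t)).θ l * (m * ((h (I.par t)).g * q j)) *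
                ((h (I.par t)).g * q j)⁻¹ = _
              group
            rw [h6]
            exact h5)
          ((h t').g * q i')
        refine this.subset ?_
        rintro l ⟨x, hx, s, hs, hl⟩
        exact ⟨x, hx, s, hs, lt_of_lt_of_le hl (by linarith)⟩
      · -- the sibling is older in time: use its own window
        have hη : (h (I.th t)).η ≤ (h (I.th t')).η := hηmono _ _ hlt.le hth
        obtain ⟨-, ⟨j', hj', m', hm', hx'eq⟩, -⟩ := hx'R
        have hpt' : I.par t' < I.th t' := I.par_lt_th t' (lt_of_le_of_lt (Nat.zero_le _) hj')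
        have hjt' : j' < I.th t' := lt_of_lt_of_le hj' (I.mp_le t')
        obtain ⟨l0, hl0⟩ := (hQ t' ht').v_mem ht'0
        have hgt' := (hQ t' ht').g_eq ht'0
        rw [hpar] at hl0 hgt' hm' hx'eq hx'i hpt'
        have hm'W : m' ∈ W1 := hQp.L_W hm'
        change x' = m' * ((h (I.par t)).g * q j') at hx'eq
        change N.N (((h (I.par t)).g * q i')⁻¹ * x') < (h (I.th t')).η at hx'i
        have := hBad' G N W0 (h (I.par t)).U (h (I.par t)).V (h (I.par t)).V1 (h (I.par t)).V2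
          (h (I.par t)).θ hQp.UI hQp.VVV (mem_of_mem_nhds hQp.V2) hQp.θ_sep
          (XX I N q (D1 h) t i j) (5 * (h (I.th t')).η)
          (fun x hx x' hx' => by
            have := XX_lt hx hx'
            have h3 : (D1 h).η (I.th t) = (h (I.th t)).η := rfl
            rw [h3] at this
            have := hηp _ hth'
            linarith)
          ((h t').v * m') ((h (I.par t)).g * q j') (x'⁻¹ * ((h (I.par t)).g * q i'))
          (by
            have h5 := hW 1 h1W 1 h1W _ (hθW l0) m' hm'W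
            rw [hl0]
            simpa using h5)
          (by
            have h6 : N.N (x'⁻¹ * ((h (I.par t)).g * q i')) < (h (I.th t')).η := by
              rw [← N.inv]
              have h7 : (x'⁻¹ * ((h (I.par t)).g * q i'))⁻¹ =
                  ((h (I.par t)).g * q i')⁻¹ * x' := by group
              rw [h7]
              exact hx'i
            have := hηp _ hth'
            linarith)
          (fun g hg => (hQ _ hth').η_conj _ hpt' _ hjt' g (by
            have := hηp _ hth'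
            linarith))
        refine this.subset ?_
        rintro l ⟨x, hx, s, hs, hl⟩
        refine ⟨x, hx, lt_of_lt_of_le ?_ (show 3 * (h (I.th t)).η + 2 * (h (I.th t')).η ≤
          5 * (h (I.th t')).η by linarith)⟩
        rw [mem_singleton_iff] at hs
        have h8 : (h t').v * m' * ((h (I.par t)).g * q j') *
            (x'⁻¹ * ((h (I.par t)).g * q i')) = s * ((h t').g * q i') := by
          rw [hs, hgt', hx'eq]
          group
        rw [h8]
        exact hl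
    filter_upwards [ev_rel ({1} : Set G) ((h t').g * q i') _ (h (I.par t)).θ key] with l hl x hx
    have := hl x hx 1 rfl
    rwa [one_mul] at this
  have ev2 : ∀ᶠ l in cofinite, ∀ w < t, I.par t < w → ∀ j' < t, ∀ o < t, ∀ j < t,
      ∀ tN < I.th t, 0 < tN →
      ∀ i < I.rd tN, I.par t < I.th tN → I.mp t ≤ I.th tN → ∀ x, Rel I N q (D1 h) t x →
      ∀ y ∈ (h w).A, ∀ l' ∈ (h w).L, 6 * (h (I.th tN)).η ≤
        N.N ((y * l' * ((h w).g * q j' * eps0 q (D1 h) o j tN i))⁻¹ *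
          ((h (I.par t)).θ l * x)) := by
    refine ev_lt fun w hw => ev_imp fun hpw => ev_lt fun j' hj' => ev_lt fun o ho =>
      ev_lt fun j₁ hj₁ => ev_lt fun tN htN => ev_imp fun htN0 => ev_lt fun i₁ hi₁ =>
      ev_imp fun hpN => ev_imp fun hmN => ?_
    have hthN : I.th tN < tN := I.th_lt tN htN0
    have hthNt : I.th tN < t := hthN.trans (htN.trans hth)
    have hη : (h (I.th t)).η ≤ (h (I.th tN)).η := hηmono _ _ (hthN.trans htN).le hth
    have key : ∀ i < I.rd t, ∀ j < I.mp t,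
        {l | ∃ x ∈ XX I N q (D1 h) t i j, ∃ s ∈ {s : G | ∃ y ∈ (h w).A, ∃ l' ∈ (h w).L,
          s = y * l'},
          N.N ((s * ((h w).g * q j' * eps0 q (D1 h) o j₁ tN i₁))⁻¹ *
            ((h (I.par t)).θ l * x)) < 6 * (h (I.th tN)).η}.Finite := by
      intro i hi j hj
      refine hBad G N W0 (h (I.par t)).U (h (I.par t)).V (h (I.par t)).V1 (h (I.par t)).V2
          (h (I.par t)).θ hQp.UI hQp.VVV hQp.θ_sep (XX I N q (D1 h) t i j)
          ((h (I.par t)).g * q j) (6 * (h (I.th tN)).η) ?_ ?_ _ ?_ ?_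
          ((h w).g * q j' * eps0 q (D1 h) o j₁ tN i₁)
      · intro x hx x' hx'
        have := XX_lt hx hx'
        have h3 : (D1 h).η (I.th t) = (h (I.th t)).η := rfl
        rw [h3] at this
        have := hηp _ hthNt
        linarith
      · intro g hg
        exact (hQ _ hthNt).η_conj _ hpN _ (lt_of_lt_of_le hj hmN) g (by linarith)
      · rintro _ ⟨y, hy, l', hl', rfl⟩
        exact (hQ w hw).V2A _ hpw y hy l' hl'
      · rintro _ ⟨y, hy, l', hl', rfl⟩ l x ⟨-, m, hm, hx⟩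
        have h5 := hW l' ((hQ w hw).L_W hl') y ((hQ w hw).A_W hy) _ (hθW l) m (hQp.L_W hm)
        rw [hx]
        change (y * l')⁻¹ * (h (I.par t)).θ l * (m * ((h (I.par t)).g * q j)) *
          ((h (I.par t)).g * q j)⁻¹ ∈ W0
        have h6 : (y * l')⁻¹ * (h (I.par t)).θ l * (m * ((h (I.par t)).g * q j)) *
          ((h (I.par t)).g * q j)⁻¹ = l'⁻¹ * y⁻¹ * (h (I.par t)).θ l * m := by group
        rw [h6]
        exact h5
    filter_upwards [ev_rel _ _ _ (h (I.par t)).θ key] with l hl x hx y hy l' hl'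
    exact hl x hx (y * l') ⟨y, hy, l', hl', rfl⟩
  obtain ⟨l, h1, h2⟩ := (ev1.and ev2).exists
  exact ⟨l, h1, h2⟩


lemma ev_conj [IsTopologicalGroup G] (N : LNorm G) (y : G) {ε : ℝ} (hε : 0 < ε) :
    ∀ᶠ x in 𝓝 (1 : G), N.N (y⁻¹ * x * y) < ε := by
  have hc : Continuous fun x : G => N.N (y⁻¹ * x * y) := N.cont.comp (by fun_prop)
  have h1 : N.N (y⁻¹ * 1 * y) < ε := by
    rw [mul_one, inv_mul_cancel, N.one]
    exact hε
  exact (hc.tendsto 1).eventually (gt_mem_nhds h1)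

lemma ev_lt' {α : Type*} {F : Filter α} {n : ℕ} {P : ℕ → α → Prop}
    (h : ∀ i < n, ∀ᶠ l in F, P i l) : ∀ᶠ l in F, ∀ i < n, P i l :=
  (Filter.eventually_all_finite (Set.finite_Iio n) (l := F)
    (p := fun i l => P i l)).2 (fun i hi => h i hi)

/-- small open sets -/
lemma small [IsTopologicalGroup G] {O : Set G} (hO : O ∈ 𝓝 (1 : G)) :
    ∃ P : Set G, IsOpen P ∧ (1 : G) ∈ P ∧ closure P ⊆ O ∧ ∀ x ∈ P, ∀ y ∈ P, x * y ∈ O := by
  obtain ⟨V, hV, h1V, hVV⟩ := exists_open_nhds_one_mul_subset hO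
  obtain ⟨C, hC, hCc, hCO⟩ := exists_mem_nhds_isClosed_subset hO
  refine ⟨V ∩ interior C, hV.inter isOpen_interior, ⟨h1V, mem_interior_iff_mem_nhds.2 hC⟩, ?_, ?_⟩
  · refine (closure_mono (inter_subset_right.trans interior_subset)).trans ?_
    rw [hCc.closure_eq]
    exact hCO
  · intro x hx y hy
    exact hVV (Set.mul_mem_mul hx.1 hy.1)

lemma ev_eta (N : LNorm G) [IsTopologicalGroup G] (β : G) {U : Set G} (hU : U ∈ 𝓝 (1 : G)) :
    ∀ᶠ η in 𝓝[>] (0 : ℝ), ∀ g, N.N g < 24 * η → β * g * β⁻¹ ∈ U := by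
  have hc : Continuous fun g : G => β * g * β⁻¹ := by fun_prop
  have h1 : {g : G | β * g * β⁻¹ ∈ U} ∈ 𝓝 (1 : G) := by
    have := (hc.tendsto 1).eventually_mem (show U ∈ 𝓝 (β * 1 * β⁻¹) by
      rw [mul_one, mul_inv_cancel]; exact hU)
    exact this
  obtain ⟨ε, hε, hεU⟩ := N.basis _ h1
  have h2 : ∀ᶠ η in 𝓝[>] (0 : ℝ), η < ε / 24 :=
    nhdsWithin_le_nhds (gt_mem_nhds (by positivity))
  filter_upwards [h2] with η hη g hg
  exact hεU g (by linarith)

/-- E1STP -/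
theorem e1stp (hSep : SepStmt) (hBad : E1BadStmt) (hBad' : E1BadStmt') : E1StpStmt := by
  intro G _ _ _ _ hlc I N q Γ W0 W1 hPhi hW1 hW t h hQ
  have hηp : ∀ s < t, 0 < (h s).η := fun s hs => (hQ s hs).η_pos
  -- the choice of `v` and `g`
  obtain ⟨v, g, hv0, hv1, hg, hsib, hpat⟩ : ∃ v g : G, (t = 0 → v = 1 ∧ g = 1) ∧
      (0 < t → ∃ l, v = (h (I.par t)).θ l) ∧ (0 < t → g = v * (h (I.par t)).g) ∧
      (∀ t' < t, 0 < t' → I.par t' = I.par t → ∀ i' < I.rd t',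
        (∃ x', RelI I N q (D1 h) t' i' x') → ∀ x, Rel I N q (D1 h) t x →
        3 * (h (I.th t)).η + 2 * (h (I.th t')).η ≤
          N.N (((h t').g * q i')⁻¹ * (v * x))) ∧
      (∀ w < t, I.par t < w → ∀ j' < t, ∀ o < t, ∀ j < t, ∀ tN < I.th t, 0 < tN →
        ∀ i < I.rd tN, I.par t < I.th tN → I.mp t ≤ I.th tN → ∀ x, Rel I N q (D1 h) t x →
        ∀ y ∈ (h w).A, ∀ l' ∈ (h w).L, 6 * (h (I.th tN)).η ≤
          N.N ((y * l' * ((h w).g * q j' * eps0 q (D1 h) o j tN i))⁻¹ * (v * x))) := by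
    rcases Nat.eq_zero_or_pos t with rfl | ht
    · exact ⟨1, 1, fun _ => ⟨rfl, rfl⟩, fun h0 => absurd h0 (lt_irrefl _),
        fun h0 => absurd h0 (lt_irrefl _), fun t' h0 => absurd h0 (Nat.not_lt_zero _),
        fun w h0 => absurd h0 (Nat.not_lt_zero _)⟩
    · obtain ⟨l, h1, h2⟩ := choose_v hBad hBad' I N q Γ W0 W1 hW1 hW t ht h hQ
      exact ⟨(h (I.par t)).θ l, (h (I.par t)).θ l * (h (I.par t)).g,
        fun h0 => absurd h0 ht.ne', fun _ => ⟨l, rfl⟩, fun _ => rfl, h1, h2⟩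
  -- the neighbourhood
  obtain ⟨Ug, hUg, hUgS⟩ := Γ.nhds t g
  have hO : ∀ᶠ x in 𝓝 (1 : G), x ∈ W1 ∧ (0 < t → x * v ∈ (h (I.par t)).A) ∧ x * g ∈ Ug ∧
      (0 < t → ∀ i < I.rd t, N.N ((g * q i)⁻¹ * x * (g * q i)) < (h (I.th t)).η) ∧
      (∀ t' < t, 0 < t' → ∀ i < I.rd t',
        N.N (((h t').g * q i)⁻¹ * x * ((h t').g * q i)) < (h (I.th t')).η) ∧
      ∀ p < t, x ∈ (h p).V2 := by
    refine Filter.eventually_and.2 ⟨hW1, Filter.eventually_and.2 ⟨ev_imp fun ht => ?_,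
      Filter.eventually_and.2 ⟨?_, Filter.eventually_and.2 ⟨ev_imp fun ht => ev_lt' fun i hi => ?_,
      Filter.eventually_and.2 ⟨ev_lt' fun t' ht' => ev_imp fun ht'0 => ev_lt' fun i hi => ?_,
        ev_lt' fun p hp => ?_⟩⟩⟩⟩⟩
    · have hQp := hQ _ (I.par_lt t ht)
      obtain ⟨l, rfl⟩ := hv1 ht
      have hc : Continuous fun x : G => x * (h (I.par t)).θ l := by fun_prop
      refine (hc.tendsto 1).eventually_mem (hQp.A_open.mem_nhds ?_)
      rw [one_mul]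
      exact hQp.θ_mem l
    · have hc : Continuous fun x : G => x * g := by fun_prop
      refine (hc.tendsto 1).eventually_mem ?_
      rw [one_mul]
      exact hUg
    · exact ev_conj N _ (hηp _ (I.th_lt t ht))
    · exact ev_conj N _ (hηp _ ((I.th_lt t' ht'0).trans ht'))
    · exact (hQ p hp).V2
  obtain ⟨P, hPo, h1P, hPc, hPP⟩ := small hO
  have hPO : ∀ x ∈ P, x ∈ {x | x ∈ W1 ∧ (0 < t → x * v ∈ (h (I.par t)).A) ∧ x * g ∈ Ug ∧
      (0 < t → ∀ i < I.rd t, N.N ((g * q i)⁻¹ * x * (g * q i)) < (h (I.th t)).η) ∧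
      (∀ t' < t, 0 < t' → ∀ i < I.rd t',
        N.N (((h t').g * q i)⁻¹ * x * ((h t').g * q i)) < (h (I.th t')).η) ∧
      ∀ p < t, x ∈ (h p).V2} := fun x hx => hPc (subset_closure hx)
  -- the own sequence
  obtain ⟨V, hV, θ, hθ, hθV⟩ := hSep G hlc P (hPo.mem_nhds h1P)
  obtain ⟨V1, V2, hV1, hV2, hVVV⟩ : ∃ V1 V2 : Set G, V1 ∈ 𝓝 (1 : G) ∧ V2 ∈ 𝓝 (1 : G) ∧
      ∀ x ∈ V2, ∀ w ∈ V1, ∀ y ∈ V2, x * w * y⁻¹ ∈ V := by
    obtain ⟨V', hV', -, h1V', hVV'⟩ : ∃ V' : Set G, V' ∈ 𝓝 (1 : G) ∧ True ∧ (1 : G) ∈ V' ∧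
        ∀ x ∈ V', ∀ y ∈ V', x * y ∈ V := by
      obtain ⟨P', h1, h2, -, h4⟩ := small hV
      exact ⟨P', h1.mem_nhds h2, trivial, h2, h4⟩
    obtain ⟨V'', hV'', -, h1V'', hVV''⟩ : ∃ V'' : Set G, V'' ∈ 𝓝 (1 : G) ∧ True ∧ (1 : G) ∈ V'' ∧
        ∀ x ∈ V'', ∀ y ∈ V'', x * y ∈ V' := by
      obtain ⟨P', h1, h2, -, h4⟩ := small hV'
      exact ⟨P', h1.mem_nhds h2, trivial, h2, h4⟩
    refine ⟨V'', V'' ∩ V'⁻¹, hV'', Filter.inter_mem hV'' (inv_mem_nhds_one G hV'), ?_⟩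
    intro x hx w hw y hy
    exact hVV' _ (hVV'' _ hx.1 _ hw) _ (Set.mem_inv.1 hy.2)
  obtain ⟨U, hU, hUI⟩ := hPhi V1 hV1
  -- the error
  obtain ⟨η, hη0, hη1, hη2⟩ : ∃ η : ℝ, 0 < η ∧ (∀ s < t, η ≤ (h s).η) ∧
      ∀ p < t, ∀ j < t, ∀ g, N.N g < 24 * η →
        (h p).g * q j * g * ((h p).g * q j)⁻¹ ∈ (h p).U := by
    have e1 : ∀ᶠ η in 𝓝[>] (0 : ℝ), 0 < η := self_mem_nhdsWithin
    have e2 : ∀ᶠ η in 𝓝[>] (0 : ℝ), ∀ s < t, η ≤ (h s).η := ev_lt' fun s hs =>
      nhdsWithin_le_nhds (ge_mem_nhds (hηp s hs))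
    have e3 : ∀ᶠ η in 𝓝[>] (0 : ℝ), ∀ p < t, ∀ j < t, ∀ g, N.N g < 24 * η →
        (h p).g * q j * g * ((h p).g * q j)⁻¹ ∈ (h p).U := ev_lt' fun p hp => ev_lt' fun j hj =>
      ev_eta N _ (hQ p hp).U
    exact (e1.and (e2.and e3)).exists
  refine ⟨⟨v, g, P, P, η, θ, V, V1, V2, U⟩, ?_⟩
  exact
    { zero := hv0
      v_mem := hv1
      g_eq := hg
      A_open := hPo
      A_one := h1P
      L_open := hPo
      L_one := h1P
      A_W := fun x hx => (hPO x hx).1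
      L_W := fun x hx => (hPO x hx).1
      nest := fun ht x hx => (hPc hx).2.1 ht
      gauge := by
        refine Γ.mono t _ Ug ?_ hUgS
        rintro _ ⟨y, hy, rfl⟩
        exact (hPc hy).2.2.1
      right := fun ht i hi x hx => (hPO x hx).2.2.2.1 ht i hi
      inv := fun t' ht' ht'0 i hi x hx l hl => ((hPP x hx l hl).2.2.2.2.1 t' ht' ht'0 i hi).le
      V2A := fun p hp x hx l hl => (hPP x hx l hl).2.2.2.2.2 p hp
      θ_mem := hθ
      θ_sep := hθV
      V2 := hV2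
      VVV := hVVV
      U := hU
      UI := hUI
      η_pos := hη0
      η_le := hη1
      η_conj := hη2
      sib := hsib
      pat := hpat }

end

end Pool.Agent.HNF.H50
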